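import Pool.Agent.TH594.HE.Ex

/-!
# Einstein manifolds of even dimension with a one-sided bound of the curvature operator

Let `n = 2 m ≥ 6`. At a point where the Ricci tensor of a Riemannian metric is `(n - 1) κ` times the
metric and all eigenvalues of the curvature operator are at most `c > 0` (no lower bound), the
Gauss-Bonnet-Chern integrand is nonnegative as soon as

`pol m s = 1 - m s + m (m-1) (2m-1) / (2 (2m-3)) s² - m (m-1) (m-2) (2m-1)² / (6 (2m-3) (2m-5)) s³`

is nonnegative, `s = 1 - κ / c`, and positive if it is positive; in dimension six this is the case for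
`c ≤ 1.728 κ`, in all dimensions `n ≥ 8` for `n (1 - κ / c) ≤ 2.98`. In dimension six the condition is
optimal: there are Einstein tensors with these bounds whose integrand is exactly `pol 3 s` times that of
constant curvature `c`. Mirrored for `Ric = -(n - 1) κ` and curvature operator at least `-c`, with the
sign `(-1)^m`, which is the sign in the Hopf conjecture.

The proof (`Pool/Agent/TH594/HE/`, over `Pool/Agent/TH594/HP/`): the curvature operator of
`c - R` is a sum of squares of two-forms `ν_a`, orthogonal, with squared norms `λ_a`; the integrand is the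
alternating sum of the traces `w_j = ∑ |ν_{a_1} ∧ … ∧ ν_{a_j}|²`; by the Einstein condition and the Bianchi
identity `∑_a |[H, ν_a]|² = 2 (ρ |H|² - ∑_a ⟨H, ν_a⟩²)`, which gives `w_2` exactly in terms of
`∑ λ_a (ρ - λ_a)` and bounds `w_3` above by a Lichnerowicz type identity on four-forms and these
brackets; in dimension six one needs in addition a spectral inequality for the fifteen numbers `λ_a`.
-/

namespace Pool.Agent.Results.MP_ebfab8_gt.OneSidedOperator

open MeasureTheory
open Pool.Agent.TH594.HE Pool.Agent.TH594.HP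
open Pool.Agent.W666.GB (AlgCurv gbc roundGB CurvField)
open Pool.Agent.W669.HD (addT unitT negT OpNonneg)

/-- Einstein curvature tensors with a one-sided bound of the curvature operator. -/
theorem result :
    -- the sign at a point
    (∀ (m : ℕ) (V : Type) [NormedAddCommGroup V] [InnerProductSpace ℝ V]
      (e : OrthonormalBasis (Fin m × Bool) ℝ V) (R : V → V → V → V → ℝ) (c κ : ℝ),
      3 ≤ m → AlgCurv R → 0 < c →
        (Einstein e R κ → OpNonneg (addT (negT R) fun x y z w => c * unitT x y z w) →
          (0 ≤ pol m (1 - κ / c) → 0 ≤ gbc e R) ∧ (0 < pol m (1 - κ / c) → 0 < gbc e R)) ∧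
        (Einstein e R (-κ) → OpNonneg (addT R fun x y z w => c * unitT x y z w) →
          (0 ≤ pol m (1 - κ / c) → 0 ≤ (-1) ^ m * gbc e R) ∧
            (0 < pol m (1 - κ / c) → 0 < (-1) ^ m * gbc e R))) ∧
    -- the explicit ranges: `c ≤ 1.728 κ` in dimension six, `2 m (1 - κ / c) ≤ 2.98` from eight on
    (∀ c κ : ℝ, 0 < c → c ≤ 216 / 125 * κ → 0 < pol 3 (1 - κ / c)) ∧
    (∀ (m : ℕ) (c κ : ℝ), 4 ≤ m → 0 < c → 2 * m * (1 - κ / c) ≤ 298 / 100 →
      0 < pol m (1 - κ / c)) ∧
    -- the condition is optimal in dimension six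
    (∀ (V : Type) [NormedAddCommGroup V] [InnerProductSpace ℝ V]
      (e : OrthonormalBasis (Fin 3 × Bool) ℝ V) (c κ : ℝ), 0 < c → κ ≤ c →
      ∃ R : V → V → V → V → ℝ, AlgCurv R ∧ Einstein e R κ ∧
        OpNonneg (addT (negT R) fun x y z w => c * unitT x y z w) ∧
        gbc e R = pol 3 (1 - κ / c) * roundGB 3 c) ∧
    -- the sign of the integral
    (∀ (m : ℕ) (M : Type) [MeasurableSpace M] (μ : Measure M) (K : CurvField m M) (c κ : ℝ),
      3 ≤ m → 0 < c → μ ≠ 0 → Integrable K.gb μ → 0 < pol m (1 - κ / c) →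
        ((∀ p, Einstein (K.e p) (K.R p) κ ∧
            OpNonneg (addT (negT (K.R p)) fun x y z w => c * unitT x y z w)) →
          0 < ∫ p, K.gb p ∂μ) ∧
        ((∀ p, Einstein (K.e p) (K.R p) (-κ) ∧
            OpNonneg (addT (K.R p) fun x y z w => c * unitT x y z w)) →
          0 < (-1) ^ m * ∫ p, K.gb p ∂μ)) := by
  refine ⟨?_, ?_, ?_, ?_, ?_⟩
  · intro m V _ _ e R c κ hm hR hc
    exact ⟨fun hE h => sign_pos e hR hc hm h hE, fun hE h => sign_neg e hR hc hm h hE⟩
  · intro c κ hc h
    refine pol_three ?_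
    have h1 : 125 / 216 ≤ κ / c := by
      rw [le_div_iff₀ hc]
      linarith
    norm_num
    linarith
  · intro m c κ hm hc h
    exact pol_four (by exact_mod_cast hm) (by linarith)
  · intro V _ _ e c κ hc hκ
    have hs : 0 ≤ 1 - κ / c := by
      rw [sub_nonneg, div_le_one hc]
      exact hκ
    have ht : (2 * ((3 : ℕ) : ℝ) - 1) * (c - κ) = 5 * (c * (1 - κ / c)) := by
      field_simp
      norm_num
      ring
    have h1 := Rx_Einstein e c κ
    rw [ht] at h1
    exact ⟨_, Rx_curv e c _, h1, Rx_op e (by positivity), eq_six e hc hs⟩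
  · intro m M _ μ K c κ hm hc hμ hi hp
    have hμ' : μ Set.univ ≠ 0 := by simpa using hμ
    constructor
    · intro h
      have h0 : ∀ p, 0 < K.gb p := fun p =>
        (sign_pos (K.e p) (K.curv p) hc hm (h p).2 (h p).1).2 hp
      exact pos_of μ _ (fun p => (h0 p).le) hi Set.univ (fun p _ => h0 p) hμ'
    · intro h
      have h0 : ∀ p, 0 < (-1) ^ m * K.gb p := fun p =>
        (sign_neg (K.e p) (K.curv p) hc hm (h p).2 (h p).1).2 hp
      rw [← integral_const_mul]
      exact pos_of μ _ (fun p => (h0 p).le) (hi.const_mul _) Set.univ (fun p _ => h0 p) hμ'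

end Pool.Agent.Results.MP_ebfab8_gt.OneSidedOperator
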