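import Pool.Agent.TH594.HA.Ein
import Pool.Agent.TH594.HP.Field

/-!
# High-dimensional Einstein manifolds with a one-sided bound of the curvature operator have the Euler
characteristic of space forms of the same volume

Let `n = 2 m`, let the Ricci tensor of a Riemannian `n`-manifold be `(n - 1) κ` times the metric and let all
eigenvalues of its curvature operator be at most `c > 0` (no lower bound). Put `A = n (1 - κ / c)`. If
`n ≥ 12 (A + 2) exp (2 A)`, the Gauss-Bonnet-Chern integrand differs from its value `G_κ` for constant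
curvature `κ` (the constant curvature with the same Ricci tensor, not `c`) by at most
`8 (A + 2) exp (2 A) / n ≤ 2 / 3` times `G_κ`. So for a closed manifold
`χ(M) = (1 + O_A(1 / n)) G_κ vol(M)`, where `G_κ vol(S^n_κ) = 2`. Mirrored for `Ric = -(n - 1) κ` and
curvature operator at least `-c`: `(-1)^m χ(M) = (1 + O_A(1 / n)) G_κ vol(M) > 0`.

The proof is in `Pool/Agent/TH594/HA/` (over `HP/`, `HE/`, `HR/`).
-/

namespace Pool.Agent.Results.MP_ebfab8_gt.SpaceFormEulerCharacteristic

open MeasureTheory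
open Pool.Agent.TH594.HA Pool.Agent.TH594.HE
open Pool.Agent.W666.GB (AlgCurv gbc roundGB CurvField)
open Pool.Agent.W669.HD (addT unitT negT OpNonneg)

/-- comparison of the integrals -/
theorem int_le {M : Type} [MeasurableSpace M] {μ : Measure M} [IsFiniteMeasure μ] {f : M → ℝ}
    {G r : ℝ} (hi : Integrable f μ) (h : ∀ p, |f p - G| ≤ r * G) :
    |∫ p, f p ∂μ - G * μ.real Set.univ| ≤ r * (G * μ.real Set.univ) := by
  have e : ∫ p, f p ∂μ - G * μ.real Set.univ = ∫ p, (f p - G) ∂μ := by
    rw [integral_sub hi (integrable_const G), integral_const, smul_eq_mul, mul_comm G]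
  rw [e, ← Real.norm_eq_abs]
  refine (norm_integral_le_of_norm_le_const (C := r * G)
    (Filter.Eventually.of_forall fun p => by rw [Real.norm_eq_abs]; exact h p)).trans ?_
  rw [mul_assoc]

theorem kappa_pos {m : ℕ} {c κ : ℝ} (hc : 0 < c) (hκ : κ ≤ c)
    (hm : 12 * (m * (1 - κ / c) + 1) * Real.exp (4 * (m * (1 - κ / c))) ≤ m) : 0 < κ := by
  have hs : 0 ≤ 1 - κ / c := by
    rw [sub_nonneg, div_le_one hc]; exact hκ
  have hx0 : 0 ≤ m * (1 - κ / c) := by positivity
  have h0 := quad_le hx0 hm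
  by_contra hk
  push Not at hk
  have h1 : κ / c ≤ 0 := div_nonpos_of_nonpos_of_nonneg hk hc.le
  have hm0 : (0 : ℝ) ≤ m := Nat.cast_nonneg m
  have h2 : (m : ℝ) ≤ m * (1 - κ / c) := by nlinarith
  nlinarith

/-- High-dimensional Einstein manifolds with a one-sided bound of the curvature operator. -/
theorem result :
    -- at a point
    (∀ (m : ℕ) (V : Type) [NormedAddCommGroup V] [InnerProductSpace ℝ V]
      (e : OrthonormalBasis (Fin m × Bool) ℝ V) (R : V → V → V → V → ℝ) (c κ : ℝ),
      AlgCurv R → 0 < c → κ ≤ c →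
      12 * (m * (1 - κ / c) + 1) * Real.exp (4 * (m * (1 - κ / c))) ≤ m →
        (Einstein e R κ → OpNonneg (addT (negT R) fun x y z w => c * unitT x y z w) →
          |gbc e R - roundGB m κ| ≤ rate m (m * (1 - κ / c)) * roundGB m κ) ∧
        (Einstein e R (-κ) → OpNonneg (addT R fun x y z w => c * unitT x y z w) →
          |(-1) ^ m * gbc e R - roundGB m κ| ≤ rate m (m * (1 - κ / c)) * roundGB m κ)) ∧
    -- the relative error is at most `2 / 3`
    (∀ (m : ℕ) (x : ℝ), 0 ≤ x → 12 * (x + 1) * Real.exp (4 * x) ≤ m → rate m x ≤ 2 / 3) ∧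
    -- the integrals
    (∀ (m : ℕ) (M : Type) [MeasurableSpace M] (μ : Measure M) [IsFiniteMeasure μ]
      (K : CurvField m M) (c κ : ℝ), 0 < c → κ ≤ c →
      12 * (m * (1 - κ / c) + 1) * Real.exp (4 * (m * (1 - κ / c))) ≤ m → Integrable K.gb μ →
        ((∀ p, Einstein (K.e p) (K.R p) κ ∧
            OpNonneg (addT (negT (K.R p)) fun x y z w => c * unitT x y z w)) →
          |∫ p, K.gb p ∂μ - roundGB m κ * μ.real Set.univ| ≤
            rate m (m * (1 - κ / c)) * (roundGB m κ * μ.real Set.univ) ∧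
          (μ ≠ 0 → 0 < ∫ p, K.gb p ∂μ)) ∧
        ((∀ p, Einstein (K.e p) (K.R p) (-κ) ∧
            OpNonneg (addT (K.R p) fun x y z w => c * unitT x y z w)) →
          |(-1) ^ m * ∫ p, K.gb p ∂μ - roundGB m κ * μ.real Set.univ| ≤
            rate m (m * (1 - κ / c)) * (roundGB m κ * μ.real Set.univ) ∧
          (μ ≠ 0 → 0 < (-1) ^ m * ∫ p, K.gb p ∂μ))) := by
  have hint : ∀ (m : ℕ) (M : Type) [MeasurableSpace M] (μ : Measure M) [IsFiniteMeasure μ]
      (K : CurvField m M) (c κ : ℝ), 0 < c → κ ≤ c →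
      12 * (m * (1 - κ / c) + 1) * Real.exp (4 * (m * (1 - κ / c))) ≤ m → Integrable K.gb μ →
        ((∀ p, Einstein (K.e p) (K.R p) κ ∧
            OpNonneg (addT (negT (K.R p)) fun x y z w => c * unitT x y z w)) →
          |∫ p, K.gb p ∂μ - roundGB m κ * μ.real Set.univ| ≤
            rate m (m * (1 - κ / c)) * (roundGB m κ * μ.real Set.univ) ∧
          (μ ≠ 0 → 0 < ∫ p, K.gb p ∂μ)) ∧
        ((∀ p, Einstein (K.e p) (K.R p) (-κ) ∧
            OpNonneg (addT (K.R p) fun x y z w => c * unitT x y z w)) →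
          |(-1) ^ m * ∫ p, K.gb p ∂μ - roundGB m κ * μ.real Set.univ| ≤
            rate m (m * (1 - κ / c)) * (roundGB m κ * μ.real Set.univ) ∧
          (μ ≠ 0 → 0 < (-1) ^ m * ∫ p, K.gb p ∂μ)) := by
    intro m M _ μ _ K c κ hc hκ hm hi
    have hs : 0 ≤ 1 - κ / c := by
      rw [sub_nonneg, div_le_one hc]; exact hκ
    have hx0 : 0 ≤ m * (1 - κ / c) := by positivity
    have hr := rate_le hx0 hm
    have hkp := kappa_pos hc hκ hm
    have hG := Pool.Agent.W666.GB.roundGB_pos (m := m) hkp
    have pos : ∀ t : ℝ, |t - roundGB m κ * μ.real Set.univ| ≤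
        rate m (m * (1 - κ / c)) * (roundGB m κ * μ.real Set.univ) → μ ≠ 0 → 0 < t := by
      intro t ht hμ
      have hv : 0 < μ.real Set.univ := by
        have hμ' : μ Set.univ ≠ 0 := by simpa using hμ
        exact ENNReal.toReal_pos hμ' (measure_ne_top μ _)
      have hGv := mul_pos hG hv
      have h1 := (abs_le.1 ht).1
      have h2 := mul_le_mul_of_nonneg_right hr hGv.le
      linarith
    constructor
    · intro h
      have h1 := int_le hi (G := roundGB m κ) (r := rate m (m * (1 - κ / c))) fun p =>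
        ein_pos (K.e p) (K.curv p) hc hκ hm (h p).2 (h p).1
      exact ⟨h1, pos _ h1⟩
    · intro h
      have h1 := int_le (hi.const_mul ((-1) ^ m)) (G := roundGB m κ)
        (r := rate m (m * (1 - κ / c))) fun p =>
        ein_neg (K.e p) (K.curv p) hc hκ hm (h p).2 (h p).1
      rw [integral_const_mul] at h1
      exact ⟨h1, pos _ h1⟩
  refine ⟨?_, ?_, hint⟩
  · intro m V _ _ e R c κ hR hc hκ hm
    exact ⟨fun hE h => ein_pos e hR hc hκ hm h hE, fun hE h => ein_neg e hR hc hκ hm h hE⟩
  · intro m x hx hm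
    exact rate_le hx hm

end Pool.Agent.Results.MP_ebfab8_gt.SpaceFormEulerCharacteristic
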